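import Pool.Agent.Helper32_OMP.Defs

/-!
# Squad ISO: coordinates modulo powers of the maximal ideal

Problem MP_b48657_ag, THEOREM U (local nondegenerate points).  `Apx f p f1`: for every `E` there are
polynomial coordinates `ψ` centered at `p` and a polynomial `u`, `u(0) = 1`, such that
`u f(ψ(y)) = f1(y)` up to terms of degree `≥ E`.
-/

set_option autoImplicit false

namespace Pool.Agent.ISO

section gen

variable {k : Type} [Field k] {σ : Type}

/-- `f` at the point `p` and `f1` at the origin agree up to coordinates and units, modulo every power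
of the maximal ideal -/
def Apx (f : MvPolynomial σ k) (p : σ → k) (f1 : MvPolynomial σ k) : Prop :=
  ∀ E : ℕ, ∃ (ψ : σ → MvPolynomial σ k) (u : MvPolynomial σ k),
    (∀ l, MvPolynomial.constantCoeff (ψ l) = p l) ∧
    LinearIndependent k (fun l : σ => fun j : σ =>
      MvPolynomial.coeff (Finsupp.single j 1) (ψ l)) ∧
    MvPolynomial.constantCoeff u = 1 ∧
    ∀ β : σ →₀ ℕ, β.degree < E →
      MvPolynomial.coeff β (u * MvPolynomial.aeval ψ f - f1) = 0

variable (k σ) in
/-- the ideal of the power series without terms of degree `< E` -/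
def JO (E : ℕ) : Ideal (MvPowerSeries σ k) where
  carrier := {x | ∀ β : σ →₀ ℕ, β.degree < E → MvPowerSeries.coeff β x = 0}
  zero_mem' := fun β _ => map_zero _
  add_mem' := by
    intro x y hx hy β hβ
    rw [map_add, hx β hβ, hy β hβ, add_zero]
  smul_mem' := by
    classical
    intro c x hx β hβ
    rw [smul_eq_mul, MvPowerSeries.coeff_mul]
    refine Finset.sum_eq_zero fun q hq => ?_
    have h1 : q.1 + q.2 = β := Finset.HasAntidiagonal.mem_antidiagonal.1 hq
    have h2 : q.2.degree ≤ β.degree := by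
      rw [← h1, map_add]
      exact Nat.le_add_left _ _
    rw [hx q.2 (lt_of_le_of_lt h2 hβ), mul_zero]

theorem mem_JO {E : ℕ} {x : MvPowerSeries σ k} :
    x ∈ JO k σ E ↔ ∀ β : σ →₀ ℕ, β.degree < E → MvPowerSeries.coeff β x = 0 := Iff.rfl

variable (k σ) in
/-- the ideal of the polynomials without terms of degree `< E` -/
def Mx (E : ℕ) : Ideal (MvPolynomial σ k) where
  carrier := {x | ∀ β : σ →₀ ℕ, β.degree < E → MvPolynomial.coeff β x = 0}
  zero_mem' := fun β _ => MvPolynomial.coeff_zero _
  add_mem' := by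
    intro x y hx hy β hβ
    rw [MvPolynomial.coeff_add, hx β hβ, hy β hβ, add_zero]
  smul_mem' := by
    classical
    intro c x hx β hβ
    rw [smul_eq_mul, MvPolynomial.coeff_mul]
    refine Finset.sum_eq_zero fun q hq => ?_
    have h1 : q.1 + q.2 = β := Finset.HasAntidiagonal.mem_antidiagonal.1 hq
    have h2 : q.2.degree ≤ β.degree := by
      rw [← h1, map_add]
      exact Nat.le_add_left _ _
    rw [hx q.2 (lt_of_le_of_lt h2 hβ), mul_zero]

theorem mem_Mx {E : ℕ} {x : MvPolynomial σ k} :
    x ∈ Mx k σ E ↔ ∀ β : σ →₀ ℕ, β.degree < E → MvPolynomial.coeff β x = 0 := Iff.rfl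

theorem coe_mem_JO {E : ℕ} {x : MvPolynomial σ k} :
    (x : MvPowerSeries σ k) ∈ JO k σ E ↔ x ∈ Mx k σ E := by
  rw [mem_JO, mem_Mx]
  simp only [MvPolynomial.coeff_coe]

end gen

end Pool.Agent.ISO
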