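import Pool.Agent.Helper32_OMP.Defs
import Pool.Agent.Helper8_CR.Defs
import Pool.Agent.Helper91_NDR.Pub
import Pool.Agent.ISO.Apx

/-!
# Squad ISO (MP_b48657_ag): hypersurfaces which are nondegenerate at finitely many points

THEOREM U. Let `f = c ∏ f_i ^ (a_i)` be a polynomial over `k ⊆ ℂ` in at least two variables and `T` a
finite set of `k`-points such that (a) the family `(f_i)` has simple normal crossings outside `T`,
(b) at every point of `T` the family `(f_i)` is nondegenerate in suitable formal coordinates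
(`NdAt`). Then `Mon f`.

This file contains the public definition `NdAt` and the interface between the blocks.
-/

set_option autoImplicit false
set_option linter.unusedVariables false

namespace Pool.Agent.ISO

open MvPolynomial Pool.Agent.Helper6_Mono Pool.Agent.Helper32_OMP

/-! ## Public definitions -/

/-- `P` is the initial form of the power series `g ≠ 0` for the weight vector `w` (used for positive
integral weights only): the sum of the terms of `g` of least weight -/
def IsInit {k σ : Type} [Field k] [Fintype σ] (w : σ → ℕ) (g : MvPowerSeries σ k)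
    (P : MvPolynomial σ k) : Prop :=
  P ≠ 0 ∧ ∃ N : ℕ, ∀ α : σ →₀ ℕ, (∑ l, w l * α l < N → MvPowerSeries.coeff α g = 0) ∧
    coeff α P = if ∑ l, w l * α l = N then MvPowerSeries.coeff α g else 0

/-- The family `f` of polynomials is nondegenerate at the `k`-point `p`: there are formal coordinates
`φ` at `p` (power series over `k` with `φ(0) = p` and invertible linear part) such that for every
positive integral weight vector `w` the family of the initial forms of the power series
`f_i(φ)`, for the `i` with `f_i(p) = 0`, has simple normal crossings at all points of the torus -/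
def NdAt {k σ ι : Type} [Field k] [Algebra k ℂ] [Fintype σ] (f : ι → MvPolynomial σ k)
    (p : σ → k) : Prop :=
  ∃ φ : σ → MvPowerSeries σ k, (∀ l, MvPowerSeries.constantCoeff (φ l) = p l) ∧
    LinearIndependent k (fun l j : σ => MvPowerSeries.coeff (Finsupp.single j 1) (φ l)) ∧
    ∀ w : σ → ℕ, (∀ l, 0 < w l) → ∃ P : ι → MvPolynomial σ k,
      (∀ i, eval p (f i) = 0 → IsInit w (aeval φ (f i)) (P i)) ∧
      ∀ z : σ → ℂ, (∀ l, z l ≠ 0) →
        SncAt (fun i : {i // eval p (f i) = 0} => MvPolynomial.map (algebraMap k ℂ) (P i)) z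

/-! ## Interface -/

/-- `P` and `Q` have the same terms of degree `< E` -/
def Eqm {k σ : Type} [Field k] (E : ℕ) (P Q : MvPolynomial σ k) : Prop :=
  ∀ b : σ →₀ ℕ, b.degree < E → coeff b P = coeff b Q

/-- polynomial coordinates at `p`: the value at `0` is `p` and the linear part is invertible -/
def Crd {k σ : Type} [Field k] (p : σ → k) (ψ : σ → MvPolynomial σ k) : Prop :=
  (∀ l, constantCoeff (ψ l) = p l) ∧
    LinearIndependent k (fun l j : σ => coeff (Finsupp.single j 1) (ψ l))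

theorem eqm_iff_mx {k σ : Type} [Field k] {E : ℕ} {P Q : MvPolynomial σ k} :
    Eqm E P Q ↔ P - Q ∈ Mx k σ E := by
  rw [mem_Mx]
  unfold Eqm
  simp only [coeff_sub, sub_eq_zero]

theorem apx_iff {k σ : Type} [Field k] {f : MvPolynomial σ k} {p : σ → k}
    {f1 : MvPolynomial σ k} : Apx f p f1 ↔
    ∀ E : ℕ, ∃ (ψ : σ → MvPolynomial σ k) (u : MvPolynomial σ k), Crd p ψ ∧
      constantCoeff u = 1 ∧ Eqm E (u * aeval ψ f) f1 := by
  unfold Apx Crd Eqm
  simp only [coeff_sub, sub_eq_zero, and_assoc]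

/-- the family `f` has simple normal crossings at all complex points outside the finite set `T` of
`k`-points -/
def SncOut {k σ ι : Type} [Field k] [Algebra k ℂ] (f : ι → MvPolynomial σ k)
    (T : Finset (σ → k)) : Prop :=
  ∀ z : σ → ℂ, (∀ p ∈ T, z ≠ fun l => algebraMap k ℂ (p l)) →
    SncAt (fun i => MvPolynomial.map (algebraMap k ℂ) (f i)) z

/-- OUTPUT OF BLOCK D (determinacy). If all `f_i` vanish at `p` and `(f_i)` has simple normal
crossings outside a finite set, then there is `D ≥ 1` such that every family `g` with the same terms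
of degree `< D` as `f_i(ψ)` (`ψ` polynomial coordinates at `p`) is isomorphic to `(f_i)` up to
units and terms of arbitrarily high degree. -/
def DetStmt : Prop :=
  ∀ (k : Type) [Field k] [Algebra k ℂ] (σ ι : Type) [Fintype σ] [Fintype ι]
    (f : ι → MvPolynomial σ k) (T : Finset (σ → k)) (p : σ → k), SncOut f T →
    (∀ i, eval p (f i) = 0) →
    ∃ D : ℕ, 1 ≤ D ∧ ∀ (ψ : σ → MvPolynomial σ k) (g : ι → MvPolynomial σ k), Crd p ψ →
      (∀ i, Eqm D (aeval ψ (f i)) (g i)) →
      ∀ E : ℕ, ∃ (ψ' : σ → MvPolynomial σ k) (u : ι → MvPolynomial σ k), Crd p ψ' ∧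
        (∀ i, constantCoeff (u i) = 1) ∧ ∀ i, Eqm E (u i * aeval ψ' (f i)) (g i)

/-- the Cayley polynomial `∑_{i ∈ S} v_i g_i` in the variables `x` (old) and `v_i` -/
noncomputable def cay {k σ ι : Type} [Field k] (g : ι → MvPolynomial σ k) (S : Finset ι) :
    MvPolynomial (σ ⊕ ι) k :=
  ∑ i ∈ S, X (Sum.inr i) * rename Sum.inl (g i)

/-- OUTPUT OF BLOCK B (helper58). Let `P_i` be polynomials all terms of which have degree `< D`, such
that the following holds for all `w > 0` and all nonempty `J`: if every `P_i`, `i ∈ J`, has a term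
of weight less than `D w_l` for all `l`, then the Cayley polynomial of the initial forms of the
`P_i`, `i ∈ J`, is smooth in the torus. Then there are polynomials `g_i` (namely
`P_i + ∑_l e_{i,l} x_l ^ D` with general `e_{i,l}`) with the same terms of degree `< D`, with simple
normal crossings outside `0`, such that `c ∏ g_i ^ (a_i)` satisfies the conjecture for all
`c ≠ 0`. -/
def BmdStmt : Prop :=
  ∀ (k : Type) [Field k] [Algebra k ℂ] (σ : Type) [Fintype σ] [Nonempty σ] (r : ℕ), 0 < r →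
    ∀ (a : Fin r → ℕ), (∀ i, 0 < a i) → ∀ (P : Fin r → MvPolynomial σ k) (D : ℕ), 1 ≤ D →
    (∀ i, ∀ α ∈ (P i).support, α.degree < D) →
    (∀ w : σ → ℤ, (∀ l, 0 < w l) → ∀ J : Finset (Fin r), J.Nonempty →
      (∀ i ∈ J, ∃ α ∈ (P i).support, ∀ l,
        Pool.Agent.Helper91_NDR.wgt w α < (D : ℤ) * w l) →
      Pool.Agent.Helper30_Simp.TorusSmooth
        (cay (fun i => Pool.Agent.Helper91_NDR.initForm w (P i)) J)) →
    ∃ g : Fin r → MvPolynomial σ k, (∀ i, Eqm D (P i) (g i)) ∧ (∀ i, g i ≠ 0) ∧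
      SncOut g {0} ∧ ∀ c : k, c ≠ 0 → Pool.Agent.Helper8_CR.Mon (C c * ∏ i, g i ^ a i)

/-- OUTPUT OF BLOCK A (model, helper91). At a point `p` of `T` there is a family `g` with simple
normal crossings outside `0` (`g_i` is a nonzero constant if `f_i(p) ≠ 0`), such that
`f1 = c ∏ g_i ^ (a_i)` has the same germ at `0` as `f = c ∏ f_i ^ (a_i)` at `p`, and satisfies the
conjecture. -/
def ModStmt : Prop :=
  ∀ (k : Type) [Field k] [Algebra k ℂ] (σ ι : Type) [Fintype σ] [Fintype ι]
    (f : ι → MvPolynomial σ k) (a : ι → ℕ), (∀ i, 0 < a i) → ∀ c : k, c ≠ 0 →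
    ∀ (T : Finset (σ → k)) (p : σ → k), SncOut f T → NdAt f p → (∃ i, eval p (f i) = 0) →
    ∃ g : ι → MvPolynomial σ k, SncOut g {0} ∧
      (∀ i, eval p (f i) ≠ 0 → g i = C (eval p (f i))) ∧
      Apx (C c * ∏ i, f i ^ a i) p (C c * ∏ i, g i ^ a i) ∧
      Pool.Agent.Helper8_CR.Mon (C c * ∏ i, g i ^ a i)

/-- OUTPUT OF BLOCK R (roots, helper8). The roots of `b_(f1)` are roots of `b_f`. -/
def RooStmt : Prop :=
  ∀ (σ ι : Type) [Fintype σ] [Fintype ι] (f g : ι → MvPolynomial σ ℂ) (a : ι → ℕ), (∀ i, 0 < a i) →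
    ∀ c : ℂ, c ≠ 0 → 2 ≤ Fintype.card σ → (∀ i, ∀ d : ℂ, f i ≠ C d) →
    ∀ (T : Finset (σ → ℂ)) (p : σ → ℂ), SncOut f T → SncOut g {0} →
    (∀ i, eval p (f i) ≠ 0 → g i = C (eval p (f i))) →
    Apx (C c * ∏ i, f i ^ a i) p (C c * ∏ i, g i ^ a i) →
    ∀ x : ℂ, (bfun (C c * ∏ i, g i ^ a i)).eval x = 0 → (bfun (C c * ∏ i, f i ^ a i)).eval x = 0

/-- OUTPUT OF BLOCK Z (zeta function, helper8 and helper60). The zeta function of `f` from those of
models `f1 p` at the points `p` of `T` with `f(p) = 0`. -/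
def ZedStmt : Prop :=
  ∀ (k : Type) [Field k] [Algebra k ℂ] (σ ι : Type) [Fintype σ] [Fintype ι]
    (f : ι → MvPolynomial σ k) (a : ι → ℕ), (∀ i, 0 < a i) → ∀ c : k, c ≠ 0 →
    ∀ (T : Finset (σ → k)), SncOut f T → ∀ (f1 : (σ → k) → MvPolynomial σ k)
    (S : (σ → k) → Finset (ℤ × ℕ)),
    (∀ p ∈ T, (∃ i, eval p (f i) = 0) → Apx (C c * ∏ i, f i ^ a i) p (f1 p) ∧
      (∀ q ∈ S p, 0 < q.2) ∧ Zf (f1 p) ∈ zetaRing (f1 p) (S p)) →
    ∃ S0 : Finset (ℤ × ℕ), (∀ q ∈ S0, 0 < q.2 ∧
      ((∃ i, (q.1 : ℚ) / (q.2 : ℚ) = -(1 / (a i : ℚ))) ∨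
        ∃ p ∈ T, (∃ i, eval p (f i) = 0) ∧ q ∈ S p)) ∧
      Zf (C c * ∏ i, f i ^ a i) ∈ zetaRing (C c * ∏ i, f i ^ a i) S0

end Pool.Agent.ISO
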