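import Pool.Agent.ISO.DefsR
import Pool.Agent.Helper32_OMP.StmtB

/-!
# Squad ISO, block R: transport of the Bernstein-Sato polynomial (rows)

MP_b48657_ag, THEOREM U. Writer helper8. Complete proofs in the docstrings. Every row: file
`Pool/Agent/HelperNN_ISO/XXX.lean`, import `Pool.Agent.ISO.StmtsR`, namespace
`Pool.Agent.ISO.R.HNN`, theorem `xxx (hypotheses = the statements in uses, in this order) : XxxStmt`.

Notation: `A = MvPolynomial σ ℂ`, `O = MvPowerSeries σ ℂ` (a domain), `∂_i = MvPowerSeries.pderiv ℂ i`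
(`Mathlib/RingTheory/MvPowerSeries/Derivative.lean`: a derivation, `pderiv_coe`: on polynomials it is
`MvPolynomial.pderiv i`), `dWord w` (Helper6_Mono/BFunDefs): `dWord [] q = q`,
`dWord (i :: w) q = pderiv i (dWord w q)` (both `rfl`). `JO ℂ σ E` is the ideal of `O` of the series
without terms of degree `< E` (`mem_JO`, `coe_mem_JO` in ISO/Apx.lean), `Mx ℂ σ E` the ideal of `A`.

PLAN. (1) VEC, OPA, CNJ, BAB: in formal coordinates. (2) APN, KRV, PWI, EXT, TRP: back to polynomials.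
(3) MON, TRA, SNP: simple normal crossings. (4) RTQ, RTM: the roots `-j/a_i`. (5) RFN.
-/

set_option autoImplicit false

namespace Pool.Agent.ISO.R

open Finset Pool.Agent.Helper6_Mono Pool.Agent.Helper32_OMP Pool.Agent.ISO

/-! ## (1) Formal coordinates -/

/-- **VEC** (easy-medium; uses nothing). The vector fields `∂ / ∂x_i` in the coordinates `φ`.
PROOF. `J l j := ∂_j (φ l)`, a matrix over `O` (`classical`). The constant coefficient of `∂_j (φ l)` is
`coeff (single j 1) (φ l)` (`MvPowerSeries.coeff_pderiv` at `0`). By `Co.li` and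
`Matrix.linearIndependent_rows_iff_isUnit` the matrix of these numbers is invertible, so
`constantCoeff (det J) ≠ 0` (`RingHom.map_det`) and `det J` is a unit
(`MvPowerSeries.isUnit_iff_constantCoeff`); put `c i j := J⁻¹ j i`, so `∑ j, J l j * c i j = (J * J⁻¹) l i`,
which is `1` for `l = i` and `0` otherwise (`Matrix.mul_nonsing_inv`). Chain rule:
`∂_j (aeval φ q) = ∑ l, aeval φ (pderiv l q) * J l j` (`MvPolynomial.induction_on q`: constants, sums,
`q * X l` by Leibniz, `pderiv_X`). Multiply by `c i j`, sum over `j`, exchange the sums. -/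
def VecStmt : Prop :=
  ∀ (σ : Type) [Fintype σ] (p : σ → ℂ) (φ : σ → MvPowerSeries σ ℂ), Co p φ →
    ∃ c : σ → σ → MvPowerSeries σ ℂ, ∀ (i : σ) (q : MvPolynomial σ ℂ),
      ∑ j, c i j * MvPowerSeries.pderiv ℂ j (MvPolynomial.aeval φ q) =
        MvPolynomial.aeval φ (MvPolynomial.pderiv i q)

/-- **OPA** (medium; uses nothing). Closure properties of `OpB`.
PROOF. (1) `c = 0`. (2) add the `c`'s (`natDegree_add_le`, `eval_add`, `sum_add_distrib`). (3) `c' w = a * c w`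
(`natDegree_mul_le`). (6) `c' w = c w` if `w ∈ Wd σ W`, else `0`; `Wd σ W ⊆ Wd σ W'` (`mem_Wd`,
`Finset.sum_subset`). (5) `c [] = 1`, the others `0`; `Wd σ 0 = {[]}`, `dWord [] q = q`, `coe_pow`.
(4) First the single terms: for `|w| ≤ W`, `natDegree a ≤ d` the sequence `n ↦ a(n) D_w(n)`, `D_w(n)` = class of
`dWord w (G^(n+1))`, is `OpB W d` (`c = Pi.single w a` with `classical`). Finite sums of `OpB W d` are
`OpB W d` by (1), (2) (induction on the finset). Now `∂_i (∑_w c_w(n) D_w(n)) = ∑_w (∂_i (c_w(n)) D_w(n) +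
c_w(n) D_(i::w)(n))` (Leibniz, `pderiv_coe`, `dWord (i :: w) q = pderiv i (dWord w q)`), and
`∂_i (c_w(n)) = a(n)` for `a = ∑_(m ∈ supp c_w) monomial m (∂_i (coeff c_w m))`, of degree `≤ d`, because
`c_w(n) = ∑ coeff_m n^m` (`Polynomial.eval_eq_sum`) and `∂_i (n^m) = 0`
(`n^m` is the cast of a natural number: `Derivation.map_natCast`). -/
def OpaStmt : Prop :=
  ∀ (σ : Type) [Fintype σ] (G : MvPolynomial σ ℂ),
    (∀ W d, OpB W d G (fun _ => 0)) ∧
    (∀ W d Ψ Ψ', OpB W d G Ψ → OpB W d G Ψ' → OpB W d G (fun n => Ψ n + Ψ' n)) ∧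
    (∀ W d e Ψ (a : Polynomial (MvPowerSeries σ ℂ)), a.natDegree ≤ e → OpB W d G Ψ →
      OpB W (d + e) G (fun n => a.eval (n : MvPowerSeries σ ℂ) * Ψ n)) ∧
    (∀ W d Ψ i, OpB W d G Ψ → OpB (W + 1) d G (fun n => MvPowerSeries.pderiv ℂ i (Ψ n))) ∧
    OpB 0 0 G (fun n => (G : MvPowerSeries σ ℂ) ^ (n + 1)) ∧
    ∀ W W' d d' Ψ, W ≤ W' → d ≤ d' → OpB W d G Ψ → OpB W' d' G Ψ

/-- **CNJ** (medium; uses VEC, OPA). Conjugation by the power of a unit.
PROOF. Induction on `w`. `w = []`: `aeval φ (f^(n+1)) = (e G)^(n+1) = e^(n+1) G^(n+1)`, OPA (5). `w = i :: v`: let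
`Ψ` belong to `v`, `c` be as in VEC. `aeval φ (pderiv i (dWord v (f^(n+1)))) =
∑_j c i j * ∂_j (e^(n+1) * Ψ n)`, and `∂_j (e^(n+1) Ψ n) = e^(n+1) (∂_j (Ψ n) + (n+1) e⁻¹ ∂_j e * Ψ n)` (Leibniz,
`Derivation.leibniz_pow`, `e * e⁻¹ = 1`: `MvPowerSeries.mul_inv_cancel`). So
`Ψ' n = ∑_j (c i j * ∂_j (Ψ n) + (n + 1) * (c i j * e⁻¹ * ∂_j e) * Ψ n)`: OPA (4), (3) with `a = C (c i j)`, resp.
`a = (X + 1) * C (c i j * e⁻¹ * ∂_j e)` of degree `≤ 1`, (6), (2), (1) (sum over `j`). -/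
def CnjStmt : Prop :=
  ∀ (σ : Type) [Fintype σ] (p : σ → ℂ) (φ : σ → MvPowerSeries σ ℂ) (e : MvPowerSeries σ ℂ)
    (f G : MvPolynomial σ ℂ), Co p φ → MvPowerSeries.constantCoeff e ≠ 0 →
    MvPolynomial.aeval φ f = e * (G : MvPowerSeries σ ℂ) →
    ∀ w : List σ, ∃ Ψ : ℕ → MvPowerSeries σ ℂ, OpB w.length w.length G Ψ ∧
      ∀ n : ℕ, MvPolynomial.aeval φ (dWord w (f ^ (n + 1))) = e ^ (n + 1) * Ψ n

/-- **BAB** (medium; uses CNJ, OPA). The functional equation in formal coordinates, with bounds which do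
not depend on the coordinates.
PROOF. Let `h, P` be as in `LBS p f b`; `W` = maximum of the lengths of the words in `P`, `d = d₀ + W`, `d₀` =
maximum of the degrees. Apply `aeval φ` to the equation (`map_list_sum`, `List.map_map`,
`aeval φ (a.eval n) = (a.map (aeval φ)).eval n`: `Polynomial.eval_map`, `Polynomial.hom_eval₂`,
`map_natCast`) and insert CNJ: `C (b(n)) * U * (e G)^n = ∑_((a, w) ∈ P) a'(n) * e^(n+1) * Ψ_w n`, `U = aeval φ h`,
`a' = a.map (aeval φ)`. `constantCoeff U = eval p h ≠ 0` (the ring homomorphism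
`constantCoeff ∘ aeval φ` is `eval p` by `Co.cc`: `MvPolynomial.ringHom_ext`), so `U` has the inverse `U⁻¹`. Cancel
`e^n`: `C (b(n)) G^n = ∑ (U⁻¹ e) a'(n) Ψ_w n`: OPA (3), (6) for every term, (2), (1) (list induction). -/
def BabStmt : Prop :=
  ∀ (σ : Type) [Fintype σ] (p : σ → ℂ) (f : MvPolynomial σ ℂ) (b : Polynomial ℂ), LBS p f b →
    ∃ W d : ℕ, ∀ (φ : σ → MvPowerSeries σ ℂ) (e : MvPowerSeries σ ℂ) (G : MvPolynomial σ ℂ),
      Co p φ → MvPowerSeries.constantCoeff e ≠ 0 →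
      MvPolynomial.aeval φ f = e * (G : MvPowerSeries σ ℂ) →
      OpB W d G (fun n => MvPowerSeries.C (b.eval (n : ℂ)) * (G : MvPowerSeries σ ℂ) ^ n)

/-! ## (2) Back to polynomials -/

/-- **APN** (medium; uses BAB). The functional equation of `f1` modulo every power of the maximal ideal.
PROOF. `W, d` from BAB. Given `E`, let `ψ, u` be as in `Apx` for `E + W`; `G := u * aeval ψ f`, so
`G - f1 ∈ Mx (E + W)`. `φ l := ψ l` as power series: `Co p φ` (`coeff_coe`); `u` is a unit of `O`, `e := u⁻¹`;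
`aeval φ f` is the class of `aeval ψ f` (`MvPolynomial.coeToMvPowerSeries.ringHom`, `ringHom_ext`), which is
`e * G`. BAB: `C (b(n)) G^n = ∑_w c_w(n) D_w(G)(n)`. Put `c'_w := ∑_(m ∈ supp c_w) monomial m
(truncTotal E (coeff c_w m))` (`MvPowerSeries.truncTotal`, `coeff_truncTotal`), so `c_w(n) - c'_w(n) ∈ JO E`
for all `n`. In `O / JO E` (or with `Ideal` rules): `G^n ≡ f1^n` mod `Mx (E + W)`
(`Ideal.Quotient` or `sub_dvd_pow_sub_pow`), `∂_i` maps `Mx (E' + 1)` into `Mx E'`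
(`MvPolynomial.coeff_pderiv`), so `dWord w (G^(n+1)) - dWord w (f1^(n+1)) ∈ Mx E` for `|w| ≤ W` (`dWord w` is
additive; induction on `w`). `Mx E'` is decreasing in `E'`. -/
def ApnStmt : Prop :=
  ∀ (σ : Type) [Fintype σ] (f f1 : MvPolynomial σ ℂ) (p : σ → ℂ) (b : Polynomial ℂ),
    Apx f p f1 → LBS p f b → ∃ W d : ℕ, ∀ E : ℕ,
      ∃ c : List σ → Polynomial (MvPolynomial σ ℂ), (∀ w, (c w).natDegree ≤ d) ∧
        ∀ n : ℕ, MvPolynomial.C (b.eval (n : ℂ)) * f1 ^ n -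
          ∑ w ∈ Wd σ W, (c w).eval (n : MvPolynomial σ ℂ) * dWord w (f1 ^ (n + 1)) ∈ Mx ℂ σ E

/-- **KRV** (medium; uses nothing). A linear system over `A` which is solvable modulo every power of the
maximal ideal of the origin is solvable after multiplication with some `h`, `h(0) ≠ 0`.
PROOF. `𝔪 := RingHom.ker (constantCoeff : A →+* ℂ)`. `Mx E ≤ 𝔪^E`: `x = ∑_β monomial β (coeff)`, and
`monomial β c ∈ 𝔪^|β| ≤ 𝔪^E` (induction on `E`: a monomial of degree `≥ E + 1` is `X l` times a monomial of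
degree `≥ E`). `M = J → A` is a finite module over the Noetherian ring `A`, `N = span A (range Q)`. For every
`E`: `τ ∈ N ⊔ 𝔪^E • ⊤`: `τ = ∑ A_i Q_i + r` with `r j ∈ 𝔪^E`, `r = ∑_j r j • Pi.single j 1`. So the class of `τ` in
`M / N` lies in `⨅ E, 𝔪^E • ⊤` (`Submodule.map` of `𝔪^E • ⊤` under `mkQ`, `Submodule.map_smul''`,
`range_mkQ`), and `Ideal.mem_iInf_smul_pow_eq_bot_iff` (Krull, `Mathlib/RingTheory/Filtration.lean`) gives
`r ∈ 𝔪` with `r • τ = τ` in `M / N`. `h = 1 - r`: `h • τ ∈ N` (`Submodule.mem_span_range_iff_exists_fun`). -/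
def KrvStmt : Prop :=
  ∀ (σ : Type) [Fintype σ] (I J : Type) [Fintype I] [Fintype J] (Q : I → J → MvPolynomial σ ℂ)
    (τ : J → MvPolynomial σ ℂ),
    (∀ E : ℕ, ∃ a : I → MvPolynomial σ ℂ, ∀ j, τ j - ∑ i, a i * Q i j ∈ Mx ℂ σ E) →
    ∃ (h : MvPolynomial σ ℂ) (a : I → MvPolynomial σ ℂ), MvPolynomial.constantCoeff h ≠ 0 ∧
      ∀ j, h * τ j = ∑ i, a i * Q i j

/-- **PWI** (easy; uses nothing). Derivatives of powers.
PROOF. `Q_[] = 1`. Let `Q` belong to `w`, `m = |w|`, `D = dWord w (G^(n+1))`. Apply `∂ = pderiv i` to `D G^m = Q(n) G^(n+1)`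
and multiply by `G`: `∂D G^(m+1) + m D G^m ∂G = ∂(Q(n)) G^(n+2) + (n+1) Q(n) G^(n+1) ∂G` (for `m = 0` the second
term is absent), so `∂D G^(m+1) = (G ∂(Q(n)) + (n + 1 - m) ∂G Q(n)) G^(n+1)`, and
`Q_(i::w) = C G * Q' + (X + 1 - m) * C (∂G) * Q` with `Q' = ∑_k monomial k (∂ (coeff Q k))`, `Q'(n) = ∂(Q(n))` (as in
OPA). -/
def PwiStmt : Prop :=
  ∀ (σ : Type) (G : MvPolynomial σ ℂ) (w : List σ), ∃ Q : Polynomial (MvPolynomial σ ℂ),
    Q.natDegree ≤ w.length ∧ ∀ n : ℕ, dWord w (G ^ (n + 1)) * G ^ w.length =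
      Q.eval (n : MvPolynomial σ ℂ) * G ^ (n + 1)

/-- **EXT** (easy-medium; uses PWI). Finitely many `n` suffice.
PROOF. `G = 0`: `n = 0` is a hypothesis, for `n ≥ 1` both sides are `0` (`dWord w 0 = 0`). `G ≠ 0`: `Q_w` of PWI. For
all `n`: `(C (b(n)) h G^n - ∑_w c_w(n) D_w(n)) G^(W+1) = S(n) G^(n+1)`, where
`S = (b.map C) * C (h * G^W) - ∑_w c_w * Q_w * C (G^(W + 1 - |w|))` is a polynomial over `A` of degree
`≤ d + W + natDegree b`. The hypothesis and the domain `A` give `S(n) = 0` for `n ≤ d + W + natDegree b`, so `S`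
has too many roots (`Polynomial.eq_zero_of_natDegree_lt_card_of_eval_eq_zero` or
`Polynomial.card_roots'`; the casts of `ℕ` into `A` are injective), `S = 0`; cancel `G^(W+1)`. -/
def ExtStmt : Prop :=
  ∀ (σ : Type) [Fintype σ] (G h : MvPolynomial σ ℂ) (b : Polynomial ℂ) (W d : ℕ)
    (c : List σ → Polynomial (MvPolynomial σ ℂ)), (∀ w, (c w).natDegree ≤ d) →
    (∀ n : ℕ, n ≤ d + W + b.natDegree → MvPolynomial.C (b.eval (n : ℂ)) * h * G ^ n =
      ∑ w ∈ Wd σ W, (c w).eval (n : MvPolynomial σ ℂ) * dWord w (G ^ (n + 1))) →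
    ∀ n : ℕ, MvPolynomial.C (b.eval (n : ℂ)) * h * G ^ n =
      ∑ w ∈ Wd σ W, (c w).eval (n : MvPolynomial σ ℂ) * dWord w (G ^ (n + 1))

/-- **TRP** (easy-medium; uses APN, KRV, EXT). **Transport of local functional equations.**
PROOF. `W, d` from APN, `D = d + W + natDegree b`. KRV with `J = Fin (D + 1)`, `I = Wd σ W × Fin (d + 1)`,
`Q (w, k) n = n^k * dWord w (f1^(n+1))`, `τ n = C (b(n)) * f1^n`: for every `E` take `a (w, k) = coeff (c w) k`
(`Polynomial.eval_eq_sum_range'`, `natDegree (c w) ≤ d`). This gives `h`, `h(0) ≠ 0`, and `a`; with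
`c w := ∑_k monomial k (a (w, k))` (`0` for `w ∉ Wd σ W`) the hypothesis of EXT holds, so the equation holds for all
`n`. List `P = (Wd σ W).toList.map (fun w => (c w, w))`; `eval 0 h = constantCoeff h`. -/
def TrpStmt : Prop :=
  ∀ (σ : Type) [Fintype σ] (f f1 : MvPolynomial σ ℂ) (p : σ → ℂ) (b : Polynomial ℂ),
    Apx f p f1 → LBS p f b → LBS 0 f1 b

/-! ## (3) Simple normal crossings -/

/-- **MON** (medium; uses nothing). Monomials.
PROOF. First `κ = 1`. For a list `L` of distinct variables let `w_L = L.flatMap (fun l => replicate (α l) l)`. Induction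
on `L`: `dWord w_L (monomial β c) = monomial (β - ∑_(l ∈ L) α_l e_l) (c ∏_(l ∈ L) (β_l)_(α_l))`, where
`(x)_m = x (x-1) ... (x-m+1)` (`Nat.descFactorial`), for all `β ≥ α`; one variable: `pderiv_monomial`, induction on `α l`. For
`L = univ.toList` and `β = (n+1) α` (`monomial_pow`): `dWord w (monomial α 1 ^ (n+1)) =
C (∏_l ((n+1) α_l)_(α_l)) * (monomial α 1)^n`, and `((n+1) a)_a = ∏_(j=1..a) (n a + j) = a^a ∏_(j=1..a) (n + j/a)`. So
`C (bmf α (n)) * K * (monomial α 1)^n = dWord w ((monomial α 1)^(n+1))` with `K = ∏ α_l^(α_l) ≠ 0`. For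
general `κ ≠ 0` multiply by `κ^(n+1)` (`dWord` is linear): `h = C (K * κ)`, `P = [(1, w)]`. -/
def MonStmt : Prop :=
  ∀ (σ : Type) [Fintype σ] (κ : ℂ) (α : σ →₀ ℕ), κ ≠ 0 →
    LBS 0 (MvPolynomial.C κ * MvPolynomial.monomial α 1) (bmf fun l => α l)

/-- **TRA** (easy; uses nothing). Translation.
PROOF. `tra z q = aeval (X l + C (z l)) q` is an automorphism `T` with inverse `tra (-z)` (`algHom_ext`) which
commutes with `pderiv i` (induction on `q`), hence with `dWord w`; `eval z (tra (-z) h) = eval 0 h`. Apply `tra (-z)` to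
the equation; `P' = (a.map T⁻¹, w)`. -/
def TraStmt : Prop :=
  ∀ (σ : Type) (z : σ → ℂ) (F : MvPolynomial σ ℂ) (b : Polynomial ℂ),
    LBS 0 (tra z F) b → LBS z F b

open scoped Classical in
/-- **SNP** (medium; uses TRP, TRA, MON). Points with simple normal crossings.
PROOF. By TRA it is enough to treat `F' = tra z F = C c * ∏ g'_i^(a_i)`, `g'_i = tra z (g i)`, at `0`. `S = {i | g_i(z) = 0}`
(as a type, finite). `Helper32_OMP.MinorStmt` (landed: `Pool.Agent.Helper32_OMP.H3.minor`, file Helper3_OMP/Minor.lean) for the gradients: an injection `t : S ↪ σ` with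
`det (∂_(t i') g_i (z)) ≠ 0`. `ψ l := g'_i` if `l = t i`, and `X l` if `l ∉ range t`; `ψ l (0) = 0`. The linear terms of
`ψ` are linearly independent: if `∑ λ_l row_l = 0`, the columns `t i'` give `∑_i λ_(t i) ∂_(t i') g_i (z) = 0`
(the rows `e_l`, `l ∉ range t`, vanish there), so `λ_(t i) = 0`, and then all `λ_l = 0`. `α = ∑_(i ∈ S) a_i e_(t i)`,
`κ = c ∏_(i ∉ S) g_i(z)^(a_i) ≠ 0`, `u = C (κ⁻¹ c) * ∏_(i ∉ S) g'_i^(a_i)`, `u(0) = 1`:
`u * aeval ψ (C κ * monomial α 1) = F'`. So `Apx (C κ * monomial α 1) 0 F'` (the same `ψ, u` for all `E`), TRP and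
MON: `LBS 0 F' (bmf α)`. `bmf α = ∏_(i ∈ S) ∏_j .. ` divides `bmf a`; multiples of `b` are fine
(`P' = ` `P` with coefficients multiplied by `C (b'')(s)`). -/
def SnpStmt : Prop :=
  ∀ (σ ι : Type) [Fintype σ] [Fintype ι] (g : ι → MvPolynomial σ ℂ) (a : ι → ℕ) (c : ℂ),
    (∀ i, 0 < a i) → c ≠ 0 → ∀ z : σ → ℂ, SncAt g z →
      LBS z (MvPolynomial.C c * ∏ i, g i ^ a i) (bmf a)

/-! ## (4) The roots `-j / a` -/

/-- **RTQ** (easy-medium; uses nothing). `Root1Stmt` (proved in Helper66_OMP/Root1.lean) for all `j`.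
PROOF. Copy that proof with `s = -(j / a)` and
`N = {h | ∃ u v, ¬ q ∣ v ∧ h * v = q^j * u}` (there: `j = 1`). Logarithmic derivative:
`s (D f / f) = - j (D q / q) + s (D f' / f')`. `N` is stable under `d_i h = D_i h + s (D_i f / f) h`: for
`h = q^j w`, `d_i h = q^j (D_i w + s (D_i f' / f') w)`. `f ∈ N` because `j ≤ a`; the conclusion
`b_f(s) • 1 ∈ N` forces `b_f(s) = 0` because `j ≥ 1` and `q` is prime. -/
def RtqStmt : Prop :=
  ∀ (σ : Type) [Finite σ] (f q f' : MvPolynomial σ ℂ) (a j : ℕ), 1 ≤ j → j ≤ a →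
    Irreducible q → f = q ^ a * f' → ¬ q ∣ f' → (bfun f).eval (-((j : ℂ) / (a : ℂ))) = 0

/-- **RTM** (easy; uses RTQ). `MrootStmt` (proved in Helper66_OMP/Mroot.lean) for all `j`: copy that
proof, with RTQ instead of ROOT1 (the row ZERO is landed: `Pool.Agent.Helper32_OMP.H66.zero`). -/
def RtmStmt : Prop :=
  ∀ (σ ι : Type) [Fintype σ] [Fintype ι], 2 ≤ Fintype.card σ → ∀ (f : ι → MvPolynomial σ ℂ)
    (a : ι → ℕ), (∀ i, 0 < a i) → ∀ c : ℂ, c ≠ 0 → (∀ i, ∀ c' : ℂ, f i ≠ MvPolynomial.C c') →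
    ∀ T : Set (σ → ℂ), T.Finite → (∀ z, z ∉ T → SncAt f z) →
    ∀ i, ∀ j : ℕ, 1 ≤ j → j ≤ a i →
      (bfun (MvPolynomial.C c * ∏ i, f i ^ a i)).eval (-((j : ℂ) / (a i : ℂ))) = 0

/-! ## (5) Output of block R -/

/-- **RFN** (easy-medium; uses TRP, SNP, RTM). **Every root of the model is a root of `b_f`.**
PROOF. `F = C c * ∏ f_i^(a_i)`, `F1 = C c1 * ∏ g_i^(a_i)`. If `x = -(j/a_i)` with `1 ≤ j ≤ a_i`: RTM. Otherwise
`(bmf a).eval x ≠ 0`. The ideal `I = {b | b.eval x = 0}` of `ℂ[s]` contains every `b` with `LocalBS F b`: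
`LBS 0 F1 b` by TRP, so `LocalBS F1 (b * bmf a)` (at `0`: a multiple of `b`; at `z ≠ 0`: SNP, a multiple of
`bmf a`), so `b * bmf a` is in the span of `{b | LocalBS F1 b}` and is a multiple of its generator, hence of
`bfun F1` (`normalize` is associated), so `(b * bmf a).eval x = 0` and `b.eval x = 0`. As in
`bfun_mem` (Helper32_OMP/BTools.lean): the span of these `b` is in `I`, and `bfun F` is in the span. -/
def RfnStmt : Prop :=
  ∀ (σ ι : Type) [Fintype σ] [Fintype ι], 2 ≤ Fintype.card σ → ∀ (f : ι → MvPolynomial σ ℂ)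
    (a : ι → ℕ), (∀ i, 0 < a i) → ∀ c : ℂ, c ≠ 0 → (∀ i, ∀ c' : ℂ, f i ≠ MvPolynomial.C c') →
    ∀ T : Set (σ → ℂ), T.Finite → (∀ z, z ∉ T → SncAt f z) →
    ∀ (p : σ → ℂ) (g : ι → MvPolynomial σ ℂ) (c1 : ℂ), c1 ≠ 0 →
      (∀ z : σ → ℂ, z ≠ 0 → SncAt g z) →
      Apx (MvPolynomial.C c * ∏ i, f i ^ a i) p (MvPolynomial.C c1 * ∏ i, g i ^ a i) →
      ∀ x : ℂ, (bfun (MvPolynomial.C c1 * ∏ i, g i ^ a i)).eval x = 0 →
        (bfun (MvPolynomial.C c * ∏ i, f i ^ a i)).eval x = 0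

/-- **APM** (easy-medium; uses nothing). Extension of the constants.
PROOF. `ρ = algebraMap k ℂ` (injective), apply `MvPolynomial.map ρ` to `ψ`, `u` and to the equation:
`map ρ (aeval ψ f) = aeval (map ρ ∘ ψ) (map ρ f)` (`MvPolynomial.ringHom_ext`), `coeff_map`. Linear independence:
`Matrix.linearIndependent_rows_iff_isUnit`, `Matrix.isUnit_iff_isUnit_det`, `RingHom.map_det`
(`classical`). -/
def ApmStmt : Prop :=
  ∀ (k : Type) [Field k] [Algebra k ℂ] (σ : Type) [Fintype σ] (f f1 : MvPolynomial σ k) (p : σ → k),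
    Apx f p f1 → Apx (MvPolynomial.map (algebraMap k ℂ) f) (fun l => algebraMap k ℂ (p l))
      (MvPolynomial.map (algebraMap k ℂ) f1)

end Pool.Agent.ISO.R
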