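import Pool.Agent.Helper32_OMP.Stmts
import Pool.Agent.ISO.Apx

/-!
# Squad ISO: restriction to the origin, moved to the point `p`
-/

set_option autoImplicit false

namespace Pool.Agent.ISO

open Pool.Agent.Helper6_Mono Pool.Agent.Helper32_OMP

/-- `(Kpt p).app X` is the part of `X` over the origin, considered over the point `p` -/
@[reducible] noncomputable def Kpt {k : Type} [Field k] {σ : Type} (p : σ → k) :
    Kern k QZ σ (fun _ => 0) σ (fun _ => 0) where
  K := GF.one k QZ
  hK := FT.one
  A := σ
  wA _ := 0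
  r l {S} _ _ b _ := b l
  r_tw l {S S'} _ _ _ _ φ c x z := rfl
  Φ l {S} _ _ _ _ := algebraMap k S (p l)
  Φ_tw l {S S'} _ _ _ _ φ c x z := by
    rw [chr_zero, one_mul, AlgHom.commutes]

end Pool.Agent.ISO
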