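import Pool.Agent.Helper6_Mono.Main
import Pool.Agent.ISO.Kpt

/-!
# Squad ISO (problem MP_b48657_ag), block M: the ring map to the fibre at a point

Writer helper60. `f`, `f1` are polynomials over `k` in the variables `σ`, `f1(0) = 0`, `f(p) = 0`. For a
scheme `V` over `{f1 = 0}` let `mv V` be its fibre over `0`, regarded as a scheme over `{f = 0}` by the
constant map `p`. `e = [mv X_s(f1)]` is the class of the point `p`, an idempotent of `ℳ_f`, and
`[V] ↦ [mv V]` defines a unital ring homomorphism `ρ : ℳ_(f1) → ℳ_f / (1 - e)` with `ρ(𝕃) = 𝕃` (row RHO). It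
maps the zeta function of `f1` to the zeta function of `f1` at `0`, moved to `p` (row OUM).

In the rows about `GSch.Iso` (MVI MVZ MVU MVP MVL MVE) a point of `mv V` with values in `S` is a point `x`
of `V` with `ev x.crd (V.pt i) = 0` for all `i`, and all points of `mv V` lie over `p`
(`ev x.crd (C (p i)) = algebraMap k S (p i)`). All maps are the obvious ones; naturality, equivariance and
bijectivity are checked coordinate by coordinate.
-/

set_option autoImplicit false
set_option linter.unusedVariables false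

namespace Pool.Agent.ISO

open MvPolynomial Pool.Agent.Helper6_Mono

section defs

variable {k : Type} [Field k] {σ : Type}

/-- the equations of the fibre of `V` over `0` -/
def mvEqs {f1 : MvPolynomial σ k} (V : GSch f1) : Set (MvPolynomial V.Idx k) :=
  {e | e ∈ V.eqs ∨ ∃ i, e = V.pt i}

theorem mv_hom {f1 : MvPolynomial σ k} (V : GSch f1) : ∀ e ∈ mvEqs V, ∃ c, Hom V.wt e c := by
  rintro e (he | ⟨i, rfl⟩)
  · exact V.eqs_hom e he
  · exact ⟨0, V.pt_hom i⟩

theorem mv_mem {f : MvPolynomial σ k} {p : σ → k} (hp : eval p f = 0) {f1 : MvPolynomial σ k}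
    (V : GSch f1) : InSpan (mvEqs V) (bind₁ (fun i => (C (p i) : MvPolynomial V.Idx k)) f) := by
  have h1 : (bind₁ fun i => (C (p i) : MvPolynomial V.Idx k)) =
      (Algebra.ofId k (MvPolynomial V.Idx k)).comp (aeval p) := by
    apply algHom_ext
    intro i
    rw [bind₁_X_right, AlgHom.comp_apply, aeval_X]
    rfl
  have h2 : bind₁ (fun i => (C (p i) : MvPolynomial V.Idx k)) f = C (eval p f) := by
    rw [h1, AlgHom.comp_apply]
    rfl
  rw [h2, hp, C_0]
  exact Ideal.zero_mem _

/-- the fibre of `V` over `0`, moved to `p` -/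
@[reducible] noncomputable def mv (f : MvPolynomial σ k) (p : σ → k) (hp : eval p f = 0)
    {f1 : MvPolynomial σ k} (V : GSch f1) : GSch f where
  Idx := V.Idx
  fin := V.fin
  wt := V.wt
  eqs := mvEqs V
  eqs_hom := mv_hom V
  pt := fun i => C (p i)
  pt_hom := fun i => isWeightedHomogeneous_C _ _
  pt_mem := mv_mem hp V

end defs

/-- **MVI** (easy-medium; no hypotheses). `mv` respects isomorphisms.
PROOF. Let `F : V.Bij W` be natural, equivariant, over the base. For a point `x` of `mv V` let `x' : V.Pt S`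
be `⟨x.crd, _⟩`; `y' = F.map S x'` satisfies `ev y'.crd (W.pt i) = ev x'.crd (V.pt i) = 0` (`IsOver`), so
`y = ⟨y'.crd, _⟩` is a point of `mv W`. Injective: equal coordinates mean `F.map S x' = F.map S x''`.
Surjective: for `y` take `x'` with `F.map S x' = y'`; `ev x'.crd (V.pt i) = ev y'.crd (W.pt i) = 0`. Natural
and equivariant: `Maps` and `Acts` are conditions on the coordinates. Over the base: both sides are
`aeval _ (C (p i)) = algebraMap k S (p i)`. -/
def MviStmt : Prop :=
  ∀ (k : Type) [Field k] (σ : Type) (f f1 : MvPolynomial σ k) (p : σ → k) (hp : eval p f = 0)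
    (V W : GSch f1), V.Iso W → (mv f p hp V).Iso (mv f p hp W)

/-- **MVZ** (easy; no hypotheses). PROOF. The two sides have the same index set and the same points: the
equations are `h`, those of `V` and the `V.pt i` in both cases. Use the map `x ↦ ⟨x.crd, _⟩`. -/
def MvzStmt : Prop :=
  ∀ (k : Type) [Field k] (σ : Type) (f f1 : MvPolynomial σ k) (p : σ → k) (hp : eval p f = 0)
    (V : GSch f1) (h : MvPolynomial V.Idx k) (c : CharMu) (hh : Hom V.wt h c),
    (mv f p hp (V.zero h c hh)).Iso ((mv f p hp V).zero h c hh)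

/-- **MVU** (easy; no hypotheses). PROOF. Same index set `Option V.Idx`; the equations are
`optX * opt h - 1`, the `opt e`, `e ∈ V.eqs`, and `opt (V.pt i)` in both cases. Use `x ↦ ⟨x.crd, _⟩`; the
points of the right side lie over `opt (C (p i)) = rename some (C (p i)) = C (p i)`. -/
def MvuStmt : Prop :=
  ∀ (k : Type) [Field k] (σ : Type) (f f1 : MvPolynomial σ k) (p : σ → k) (hp : eval p f = 0)
    (V : GSch f1) (h : MvPolynomial V.Idx k) (c : CharMu) (hh : Hom V.wt h c),
    (mv f p hp (V.unit h c hh)).Iso ((mv f p hp V).unit h c hh)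

/-- **MVL** (easy; no hypotheses). PROOF. As MVU: index set `Option V.Idx`, equations `opt e`, `e ∈ V.eqs`, and
`opt (V.pt i)` in both cases. -/
def MvlStmt : Prop :=
  ∀ (k : Type) [Field k] (σ : Type) (f f1 : MvPolynomial σ k) (p : σ → k) (hp : eval p f = 0)
    (V : GSch f1) (c : CharMu),
    (mv f p hp (V.line c)).Iso ((mv f p hp V).line c)

/-- **MVP** (easy-medium; no hypotheses). PROOF. Index set `V.Idx ⊕ W.Idx` in both cases. Left side: equations
of `V`, of `W`, `V.pt i = W.pt i` and `V.pt i = 0` (`(V.prod W).pt i = inl (V.pt i)`). Right side: equations of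
`V` and `V.pt i = 0`, of `W` and `W.pt i = 0`, `C (p i) - C (p i) = 0`. The same points. (Evaluate with
`aeval_rename`.) Use `x ↦ ⟨x.crd, _⟩`. -/
def MvpStmt : Prop :=
  ∀ (k : Type) [Field k] (σ : Type) (f f1 : MvPolynomial σ k) (p : σ → k) (hp : eval p f = 0)
    (V W : GSch f1),
    (mv f p hp (V.prod W)).Iso ((mv f p hp V).prod (mv f p hp W))

/-- **MVE** (easy-medium; no hypotheses). The class `e` of the point acts trivially.
PROOF. A point of the left side is a pair of a point `y` of `mv (base f1)`, i.e. `f1(y) = 0` and `y = 0`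
(`(base f1).pt i = X i`), and a point `x` of `mv V`; the pairs are over the same base point `p`. Map it to
`x` (coordinates `Sum.inr`); bijective because `y = 0` is the only possibility and `f1(0) = 0`
(`ev (fun _ => 0) f1 = algebraMap k S (eval 0 f1)`). Equivariance: `x.crd (Sum.inr j)` has the weight
`V.wt j` on both sides. -/
def MveStmt : Prop :=
  ∀ (k : Type) [Field k] (σ : Type) [Finite σ] (f f1 : MvPolynomial σ k) (p : σ → k)
    (hp : eval p f = 0), eval (0 : σ → k) f1 = 0 → ∀ V : GSch f1,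
    ((mv f p hp (GSch.base f1)).prod (mv f p hp V)).Iso (mv f p hp V)

/-- **RHO** (medium; uses MVI MVZ MVU MVL MVP MVE). The ring homomorphism.
PROOF. Write `E = mv (base f1)`, `I = (1 - cls E)`, `q : ℳ_f → ℳ_f / I`. Relations of `ℳ_f` (`KRel f`, as in
`RingPart.chi`): `cls` of isomorphic schemes are equal, `cls (V.prod W) = cls V * cls W`,
`cls V = cls (V.zero h) + cls (V.unit h)`, `cls (V.line c) = LL f * cls V` (`KRel.line`). MVE: (a)
`cls E * cls (mv V) = cls (mv V)`. Let `g : MvPolynomial (GSch f1) ℤ →+* ℳ_f / I` be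
`eval₂Hom (Int.castRingHom _) (fun V => q (cls (mv V)))`. It vanishes on `KRel f1`: `iso` by MVI, `scissor` by
MVZ, MVU and the scissor relation of `mv V`, `prod` by MVP, `one` because `q (cls E) = q 1`, `line` by MVL:
`cls (mv (V.line c)) = LL f * cls (mv V)`, in particular `cls (mv ((base f1).line 0)) = LL f * cls E`, and
`q (cls E) = 1`. So `Ideal.Quotient.lift` gives `ρ₀ : K0 f1 →+* ℳ_f / I`; `ρ₀ (L0 f1) = q (LL f)` is a unit;
`IsLocalization.Away.lift` gives `ρ` with `ρ (toMM f1 x) = ρ₀ x`. `ρ (Lpow f1 a) = q (Lpow f a)`: both are the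
`a`-th powers of units (`Units.map`, `map_zpow`), equal for `a = 1`. -/
def RhoStmt : Prop :=
  ∀ (k : Type) [Field k] (σ : Type) [Finite σ] (f f1 : MvPolynomial σ k) (p : σ → k)
    (hp : eval p f = 0), eval (0 : σ → k) f1 = 0 →
    (∀ V : GSch f1, cls (mv f p hp (GSch.base f1)) * cls (mv f p hp V) = cls (mv f p hp V)) ∧
    ∃ ρ : MM f1 →+* (MM f ⧸ Ideal.span {1 - cls (mv f p hp (GSch.base f1))}),
      (∀ V : GSch f1, ρ (cls V) = Ideal.Quotient.mk _ (cls (mv f p hp V))) ∧
      ∀ a : ℤ, ρ (Lpow f1 a) = Ideal.Quotient.mk _ (Lpow f a)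

/-- **ZRM** (medium; no hypotheses). Rational series under a ring homomorphism to a quotient by an idempotent.
PROOF. `q : R₂ → R' = R₂ / (1 - e)`; `A₂ = Algebra.adjoin R₂ (..)`. CLAIM: for every `F` in the algebra on the
left there is `H ∈ A₂` with `q^(H) = ρ^(F)`, `q^ = PowerSeries.map q`, `ρ^ = PowerSeries.map ρ`
(`Algebra.adjoin_induction`): constants: `q` is surjective; `X ↦ X`; if `x (1 - C (L₁^a) X^b) = 1`, `b > 0`, then
`1 - C (L₂^a) X^b` has constant coefficient `1`, so it has an inverse `y` (a generator of `A₂`), and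
`q^(y)`, `ρ^(x)` are both inverse to `1 - C (q (L₂^a)) X^b = 1 - C (ρ (L₁^a)) X^b`
(`ρ (L₁^a) = q (L₂^a)`: powers of units, `Units.map` and `map_zpow`); sums and products.
So `q (coeff m H) = ρ (coeff m F) = q (coeff m G)` and `coeff m H - coeff m G ∈ (1 - e)`
(`Ideal.Quotient.eq`, `Ideal.mem_span_singleton'`), hence `e * coeff m H = e * coeff m G`, since
`e (1 - e) = 0`: `C e * G = C e * H ∈ A₂`. -/
def ZrmStmt : Prop :=
  ∀ (R₁ R₂ : Type 1) [CommRing R₁] [CommRing R₂] (L₁ : R₁ˣ) (L₂ : R₂ˣ) (e : R₂), e * e = e →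
    ∀ ρ : R₁ →+* R₂ ⧸ Ideal.span {1 - e}, ρ (L₁ : R₁) = Ideal.Quotient.mk _ (L₂ : R₂) →
    ∀ S : Finset (ℤ × ℕ), (∀ q ∈ S, 0 < q.2) → ∀ F : PowerSeries R₁,
    F ∈ Algebra.adjoin R₁ {x : PowerSeries R₁ | x = PowerSeries.X ∨ ∃ q ∈ S,
      x * (1 - PowerSeries.C ((L₁ ^ q.1 : R₁ˣ) : R₁) * PowerSeries.X ^ q.2) = 1} →
    ∀ G : PowerSeries R₂, (∀ m, Ideal.Quotient.mk (Ideal.span {1 - e}) (PowerSeries.coeff m G) =
      ρ (PowerSeries.coeff m F)) →
    PowerSeries.C e * G ∈ Algebra.adjoin R₂ {x : PowerSeries R₂ | x = PowerSeries.X ∨ ∃ q ∈ S,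
      x * (1 - PowerSeries.C ((L₂ ^ q.1 : R₂ˣ) : R₂) * PowerSeries.X ^ q.2) = 1}

/-- **PAP** (medium; no hypotheses). `mv` on functors is the application of `Kpt`.
PROOF. `Pres X V` is `OIso (X.zero (fNF f1 X)) (ov V)`: `⟨e, he⟩`, `he : (ov V).pt i (e x) = X.pt i x`. A point of
`((Kpt p).app X).zero (fNF f _)` over `S` is `((x, ()), x.base = 0)` together with
`aeval (fun l => algebraMap k S (p l)) f = 0` (always true: it is `algebraMap k S (eval p f)`). Since
`X.base x = 0` and `f1(0) = 0`, `aeval (X.base x) f1 = algebraMap k S (eval 0 f1) = 0`, so `x` is a point of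
`X.zero (fNF f1 X)`; `e x` is a point of `ov V` with `aeval (e x).1 (V.pt i) = X.pt i x = 0`: a point of
`ov (mv f p hp V)` (equations `mvEqs V`). Inverse: `y ↦ e.symm y`, with base `aeval y.1 (V.pt i) = 0`.
`eq_tw` from that of `e`; over the base: both are `algebraMap k S (p i)` (`aeval_C`). -/
def PapStmt : Prop :=
  ∀ (k : Type) [Field k] (σ : Type) (f f1 : MvPolynomial σ k) (p : σ → k) (hp : eval p f = 0),
    eval (0 : σ → k) f1 = 0 → ∀ (X : RingPart.Ov k σ) (V : GSch f1), RingPart.Pres X V →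
    RingPart.Pres ((Kpt p).app X) (mv f p hp V)

/-- **OUM** (medium; uses RHO ZRM PAP). **Output of the block.**
PROOF. `E = mv (base f1)`, `e = cls E`, `ρ` of RHO; `e * e = e` (first part of RHO for `V = base f1`).
For `m ≠ 0`: `RingPart.pres_jet` for `f1` and PAP: `Pres_f ((Kpt p).app (FibK.app (Jet f1 ..))) (mv (XJet f1 m hm))`,
so by `RingPart.val_eq` (`(RingPart.chi f).χ X = RingPart.val f X` by definition) the value of `χ` is
`cls (mv (XJet f1 m hm))`, `s m = Lpow f (-(m n)) * cls (mv (XJet f1 m hm))` (`n = Nat.card σ`; see `hL` in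
`RO.zeta`, `Helper6_Mono/Main.lean`), `e * s m = s m` by RHO, and
`q (s m) = ρ (zetaCoeff f1 m)`. Let `s' m = if m = 0 then 0 else s m`, `G = mk s'`, `F = Zf f1`: the coefficients of
`q^(G)` and `ρ^(F)` agree (at `m = 0` both are `0`). ZRM with `L₁ = LL f1`, `L₂ = LL f` (`zetaRing`, `gens`,
`denom`, `Lpow` are definitionally the sets of ZRM): `C e * G ∈ zetaRing f S`, and `C e * G = G`;
`mk s = G + C (s 0)`. -/
def OumStmt : Prop :=
  ∀ (k : Type) [Field k] (σ : Type) [Finite σ] (f f1 : MvPolynomial σ k) (p : σ → k),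
    eval p f = 0 → eval (0 : σ → k) f1 = 0 → ∀ S : Finset (ℤ × ℕ), (∀ q ∈ S, 0 < q.2) →
    Zf f1 ∈ zetaRing f1 S → ∀ s : ℕ → MM f,
    (∀ (m : ℕ) (hm : m ≠ 0) (hω : m • ((((1 : ℚ) / m : ℚ)) : QZ) = 0),
      s m = Li (LL f) ^ (m * Nat.card σ) *
        (RingPart.chi f).χ ((Kpt p).app ((FibK k σ ((((1 : ℚ) / m : ℚ)) : QZ) m hω).app
          (Jet f1 Set.univ m ((((1 : ℚ) / m : ℚ)) : QZ))))) →
    PowerSeries.mk s ∈ zetaRing f S

end Pool.Agent.ISO
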