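import Pool.Agent.ISO.Apx

/-!
# Squad ISO, block R: local functional equations (definitions)
-/

set_option autoImplicit false

namespace Pool.Agent.ISO

open Finset Pool.Agent.Helper6_Mono Pool.Agent.Helper32_OMP

/-- The functional equation `b(s) f^s = P f^(s+1)` at the point `z` (`LocalBS f b` is by definition
`∀ z, LBS z f b`). -/
def LBS {σ : Type} (z : σ → ℂ) (F : MvPolynomial σ ℂ) (b : Polynomial ℂ) : Prop :=
  ∃ h : MvPolynomial σ ℂ, MvPolynomial.eval z h ≠ 0 ∧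
    ∃ P : List (Polynomial (MvPolynomial σ ℂ) × List σ), ∀ n : ℕ,
      MvPolynomial.C (b.eval (n : ℂ)) * h * F ^ n =
        (P.map fun aw => aw.1.eval (n : MvPolynomial σ ℂ) * dWord aw.2 (F ^ (n + 1))).sum

theorem localBS_iff {σ : Type} {F : MvPolynomial σ ℂ} {b : Polynomial ℂ} :
    LocalBS F b ↔ ∀ z, LBS z F b := Iff.rfl

/-- the words of length `≤ W` -/
noncomputable def Wd (σ : Type) [Fintype σ] (W : ℕ) : Finset (List σ) :=
  (List.finite_length_le σ W).toFinset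

theorem mem_Wd {σ : Type} [Fintype σ] {W : ℕ} {w : List σ} : w ∈ Wd σ W ↔ w.length ≤ W := by
  unfold Wd
  rw [Set.Finite.mem_toFinset]
  exact Iff.rfl

/-- the sequence `Ψ n` is `P(n) G^(n+1)` for a differential operator `P` with coefficients in
`ℂ[[y]]`, of order `≤ W` and of degree `≤ d` in `n` -/
def OpB {σ : Type} [Fintype σ] (W d : ℕ) (G : MvPolynomial σ ℂ) (Ψ : ℕ → MvPowerSeries σ ℂ) :
    Prop :=
  ∃ c : List σ → Polynomial (MvPowerSeries σ ℂ), (∀ w, (c w).natDegree ≤ d) ∧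
    ∀ n : ℕ, Ψ n = ∑ w ∈ Wd σ W, (c w).eval (n : MvPowerSeries σ ℂ) *
      ((dWord w (G ^ (n + 1)) : MvPolynomial σ ℂ) : MvPowerSeries σ ℂ)

/-- formal coordinates centered at `p` -/
structure Co {σ : Type} (p : σ → ℂ) (φ : σ → MvPowerSeries σ ℂ) : Prop where
  cc : ∀ l, MvPowerSeries.constantCoeff (φ l) = p l
  li : LinearIndependent ℂ (fun l : σ => fun j : σ =>
    MvPowerSeries.coeff (Finsupp.single j 1) (φ l))

/-- the polynomial `∏_i ∏_(j = 1 .. a_i) (s + j / a_i)` -/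
noncomputable def bmf {ι : Type} [Fintype ι] (a : ι → ℕ) : Polynomial ℂ :=
  ∏ i, ∏ j ∈ range (a i), (Polynomial.X + Polynomial.C (((j : ℂ) + 1) / (a i : ℂ)))

end Pool.Agent.ISO
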