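import Pool.Agent.ISO.Defs

/-!
# Squad ISO, block D: finite determinacy (`DetStmt`)

`Im f v`: the vector `v` of polynomials is in the image of the matrix `[diag f_i | ∂_l f_i]`;
`Kil f r`: the polynomial `r` kills the cokernel of this matrix. Rows: DIM DRK DNU DES DNL (the
cokernel is killed by `h (x - p)^α`, `|α| = K`, `h(p) ≠ 0`), DMX DTY DGR (degrees, Taylor, graded
step), DST DNW DET (Newton iteration).
-/

set_option autoImplicit false

namespace Pool.Agent.ISO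

open MvPolynomial Pool.Agent.Helper32_OMP

/-- `v` is in the image of `[diag f_i | ∂_l f_i]` -/
def Im {K σ ι : Type} [Field K] [Fintype σ] (f v : ι → MvPolynomial σ K) : Prop :=
  ∃ (a : ι → MvPolynomial σ K) (b : σ → MvPolynomial σ K),
    ∀ j, v j = a j * f j + ∑ l, b l * pderiv l (f j)

/-- `r` kills the cokernel of `[diag f_i | ∂_l f_i]` -/
def Kil {K σ ι : Type} [Field K] [Fintype σ] (f : ι → MvPolynomial σ K) (r : MvPolynomial σ K) :
    Prop := ∀ v : ι → MvPolynomial σ K, Im f fun j => r * v j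

/-- `(x - p)^α` -/
noncomputable def xp {K σ : Type} [Field K] [Fintype σ] (p : σ → K) (α : σ →₀ ℕ) :
    MvPolynomial σ K := ∏ l, (X l - C (p l)) ^ α l

/-- `h (x - p)^α`, `|α| = K`, kills the cokernel and `h(p) ≠ 0` -/
def Ann {k σ ι : Type} [Field k] [Fintype σ] (f : ι → MvPolynomial σ k) (p : σ → k) (K : ℕ)
    (h : MvPolynomial σ k) : Prop :=
  1 ≤ K ∧ eval p h ≠ 0 ∧ ∀ α : σ →₀ ℕ, α.degree = K → Kil f (h * xp p α)

/-- **DIM** (easy, no hypotheses). PROOF. Take the sums resp. multiples of the coefficient vectors `a`, `b`.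
For `Kil`: (4) `(r + r') * v j = r * v j + r' * v j`; (5) `c * r * v j = c * (r * v j)`. -/
def DimStmt : Prop :=
  ∀ (K σ ι : Type) [Field K] [Fintype σ] (f : ι → MvPolynomial σ K),
    Im f (fun _ => 0) ∧
    (∀ v w : ι → MvPolynomial σ K, Im f v → Im f w → Im f fun j => v j + w j) ∧
    (∀ (v : ι → MvPolynomial σ K) (c : MvPolynomial σ K), Im f v → Im f fun j => c * v j) ∧
    (∀ r r' : MvPolynomial σ K, Kil f r → Kil f r' → Kil f (r + r')) ∧
    ∀ c r : MvPolynomial σ K, Kil f r → Kil f (c * r)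

/-- **DRK** (medium, uses DIM). At a point with simple normal crossings the cokernel is killed by a polynomial
which does not vanish there.
PROOF. Let `κ = ι ⊕ σ` and `A j : κ → MvPolynomial σ ℂ`, `A j (inl i) = if i = j then f j else 0`,
`A j (inr l) = pderiv l (f j)`. The rows `eval z (A j ·) : κ → ℂ` are linearly independent: if
`∑ λ_j row_j = 0`, the entry `inl j` gives `λ_j f_j(z) = 0`, so `λ_j = 0` when `f_j(z) ≠ 0`; the
entries `inr l` and `SncAt f z` give `λ_j = 0` for the others. So the linear map `ℂ^ι → ℂ^κ`,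
`e_j ↦ row_j`, is injective and has a left inverse `g` (`LinearMap.exists_leftInverse_of_injective`); with
`B c i = g (e_c) i` we have `∑_c eval z (A j c) * B c i = g(row_j) i = if i = j then 1 else 0`. Let `M` be
the matrix `M j i = ∑_c A j c * C (B c i)` over the polynomial ring, `r = M.det`. `eval z r = det 1 = 1`
(`RingHom.map_det`). Each column of `M` is in the image (`Im f`: `a j = C (B (inl j) i)`,
`b l = C (B (inr l) i)`), and `M * M.adjugate = r • 1` (`Matrix.mul_adjugate`), so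
`r * v j = ∑_i M j i * (M.adjugate *ᵥ v) i` is in the image (DIM (1)-(3), finite sum). -/
def DrkStmt : Prop :=
  ∀ (σ ι : Type) [Fintype σ] [Fintype ι] (f : ι → MvPolynomial σ ℂ) (z : σ → ℂ), SncAt f z →
    ∃ r : MvPolynomial σ ℂ, Kil f r ∧ eval z r = 1

/-- **DNU** (easy-medium, uses DIM DRK). Nullstellensatz.
PROOF. `I = {r | Kil f r}` is an ideal (DIM: `0` is `0 * r`.., (4), (5)). By DRK every `z` outside `T` is not in
`zeroLocus I`; so `P` is in `vanishingIdeal (zeroLocus I) = I.radical`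
(`MvPolynomial.vanishingIdeal_zeroLocus_eq_radical`, `K = k = ℂ`). -/
def DnuStmt : Prop :=
  ∀ (σ ι : Type) [Fintype σ] [Fintype ι] (f : ι → MvPolynomial σ ℂ) (T : Finset (σ → ℂ)),
    (∀ z : σ → ℂ, z ∉ T → SncAt f z) → ∀ P : MvPolynomial σ ℂ, (∀ z ∈ T, eval z P = 0) →
    ∃ N : ℕ, Kil f (P ^ N)

/-- **DES** (easy-medium, no hypotheses). Descent from `ℂ` to `k`.
PROOF. Let `π : ℂ →ₗ[k] k` with `π 1 = 1` (left inverse of the injective `Algebra.linearMap k ℂ`: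
`LinearMap.exists_leftInverse_of_injective`), and `Π : MvPolynomial σ ℂ → MvPolynomial σ k` the map on the
coefficients (`Finsupp.mapRange π`, or `∑ monomial n (π (coeff n P))`). Compare coefficients
(`MvPolynomial.coeff_mul`): `Π (a * map Q) = Π a * Q` for `Q` over `k`. Apply `Π` to
`map (v j) = a j * map (f j) + ∑ b l * map (pderiv l (f j))` (`pderiv_map`). -/
def DesStmt : Prop :=
  ∀ (k σ ι : Type) [Field k] [Algebra k ℂ] [Fintype σ] (f v : ι → MvPolynomial σ k),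
    Im (fun i => map (algebraMap k ℂ) (f i)) (fun i => map (algebraMap k ℂ) (v i)) → Im f v

/-- **DNL** (medium, uses DIM DNU DES). The cokernel near `p`.
PROOF. Let `T' = T ∪ {p}`, `T'_ℂ` its image in `ℂ^σ`. For `p' ∈ T'`, `p' ≠ p`, choose `l(p')` with
`p'_l ≠ p_l`; `q = ∏_(p' ∈ T', p' ≠ p) (X_(l(p')) - C (p'_(l(p'))))` over `k`. `q(p) ≠ 0`, and
`q * (X_l - C (p_l))` vanishes on `T'` for every `l`. By DNU (for the family `map f`, points of `T'_ℂ`):
`(q (X_l - C p_l))^(N_l)` (over `ℂ`) is in `Kil (map f)`. `K = 1 + ∑ N_l`, `h = q^(∑ N_l)`. Let `|α| = K`. Some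
`α_l ≥ N_l` (otherwise `|α| ≤ ∑ N_l`). So `h * xp p α` (over `ℂ`) is a multiple of `(q (X_l - C p_l))^(N_l)`,
hence in `Kil (map f)` (DIM (5)). For `v` over `k`: `Im (map f) (map (h * xp p α * v))`, so by DES
`Im f (h * xp p α * v)`. (If `σ` is empty there is no `α` with `|α| = K ≥ 1`.) -/
def DnlStmt : Prop :=
  ∀ (k : Type) [Field k] [Algebra k ℂ] (σ ι : Type) [Fintype σ] [Fintype ι]
    (f : ι → MvPolynomial σ k) (T : Finset (σ → k)) (p : σ → k), SncOut f T →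
    ∃ (K : ℕ) (h : MvPolynomial σ k), Ann f p K h

/-- **DMX** (easy, no hypotheses). Rules for `Mx`.
PROOF. (1) `coeff_mul`: if `β = β1 + β2` has degree `< a + b` then `β1` has degree `< a` or `β2` degree `< b`.
(2) clear. (3) a polynomial without terms of degree `< e` is a sum of terms `monomial β c`, `e ≤ |β|`, and
`monomial β c` is a product of `C c` and `|β|` variables `X_l ∈ Mx 1` (induction on `β`,
`Ideal.pow_le_pow_right`). (4) `Mx 1`: only the constant coefficient. -/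
def DmxStmt : Prop :=
  ∀ (k σ : Type) [Field k] [Fintype σ],
    (∀ (a b : ℕ) (x y : MvPolynomial σ k), x ∈ Mx k σ a → y ∈ Mx k σ b → x * y ∈ Mx k σ (a + b)) ∧
    (∀ a b : ℕ, a ≤ b → Mx k σ b ≤ Mx k σ a) ∧
    (∀ e : ℕ, Mx k σ e ≤ Mx k σ 1 ^ e) ∧
    ∀ x : MvPolynomial σ k, x ∈ Mx k σ 1 ↔ constantCoeff x = 0

/-- **DTY** (easy-medium, uses DMX). Taylor of order two.
PROOF. Induction on `f` (`MvPolynomial.induction_on`). Constants: `0`. Sums: clear. `f * X_i`: with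
`F = aeval ψ f`, `F' = aeval (ψ + b) f`, `D = ∑ b_l aeval ψ (∂_l f)`, `F' - F - D ∈ Mx (2m)`, `D ∈ Mx m`:
`F' (ψ_i + b_i) - F ψ_i - (D ψ_i + F b_i) = (F' - F - D)(ψ_i + b_i) + D b_i ∈ Mx (2m)`. -/
def DtyStmt : Prop :=
  ∀ (k σ : Type) [Field k] [Fintype σ] (f : MvPolynomial σ k) (ψ b : σ → MvPolynomial σ k) (m : ℕ),
    (∀ l, b l ∈ Mx k σ m) →
    aeval (fun l => ψ l + b l) f - aeval ψ f - ∑ l, b l * aeval ψ (pderiv l f) ∈ Mx k σ (2 * m)

/-- **DGR** (medium, uses DMX). Graded step: `a = (ψ_l - p_l)` generates the maximal ideal modulo its powers.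
PROOF. `𝔞 = Ideal.span (Set.range fun l => ψ l - C (p l))`. (i) `Mx 1 ≤ 𝔞 ⊔ Mx 2`: the matrix
`A l j = coeff (single j 1) (ψ l)` is invertible (`Crd`), `ψ l - C (p l) - ∑_j A l j X_j ∈ Mx 2`, so
`X_j - ∑_l (A⁻¹) j l (ψ l - C (p l)) ∈ Mx 2`, and `Mx 1` is generated by the `X_j` modulo `Mx 2`. `𝔞 ≤ Mx 1`. (ii)
`(Mx 1)^e ≤ 𝔞^e ⊔ Mx (e + 1)` by induction on `e` (`e = 0`: `𝔞^0 = ⊤`):
`(Mx 1)^(e+1) ≤ (𝔞^e ⊔ Mx (e+1)) * (𝔞 ⊔ Mx 2) ≤ 𝔞^(e+1) ⊔ Mx (e+2)` (`Ideal.sup_mul`, `Ideal.mul_sup`,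
`𝔞^e ≤ (Mx 1)^e ≤ Mx e`, DMX (1)). DMX (3). -/
def DgrStmt : Prop :=
  ∀ (k σ : Type) [Field k] [Fintype σ] (p : σ → k) (ψ : σ → MvPolynomial σ k), Crd p ψ →
    ∀ e : ℕ, Mx k σ e ≤ Ideal.span (Set.range fun l => ψ l - C (p l)) ^ e ⊔ Mx k σ (e + 1)

/-- **DST** (medium, uses DIM DMX DGR). The linear equation modulo one degree more.
PROOF. `𝔞` as in DGR, `𝔞 ≤ Mx 1` (DMX (4)), `F j = aeval ψ (f j)`, `G l j = aeval ψ (pderiv l (f j))`.
(i) For `w ∈ 𝔞^K` and every `c : ι → MvPolynomial σ k`: `(aeval ψ h * w * c j)_j` is of the form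
`(a j * F j + ∑ b l * G l j)_j` for polynomials `a`, `b`. Indeed the set of the `w` for which this holds for
all `c` is an ideal, and `𝔞^K` is spanned by the products `∏_l (ψ_l - p_l)^(α_l)`, `|α| = K` (`Ideal.span_pow_eq`..
or induction: it is enough to treat products of `K` generators); for those apply `aeval ψ` to the relation
`Kil f (h * xp p α)` for the unit vectors (`v j = if j = i then 1 else 0`), multiply by `c i` and sum over
`i` (`ι` finite). (ii) The same with `𝔞^(K + m)` and `a j, b l ∈ Mx m`: `𝔞^(K+m) = 𝔞^K * 𝔞^m`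
(`Submodule.mul_induction_on`), `𝔞^m ≤ Mx m`. (iii) Let `r j ∈ Mx (K + m)`. By DGR `r j = w j + s j`,
`w j ∈ 𝔞^(K+m)`, `s j ∈ Mx (K+m+1)`. `(aeval ψ h * w j)_j = ∑_i (aeval ψ h * w i * δ_(ij))_j` is as in (ii),
and with `η = eval p h = constantCoeff (aeval ψ h) ≠ 0`: `aeval ψ h * r j - C η * r j ∈ Mx (K+m+1)`. Divide by
`η`. -/
def DstStmt : Prop :=
  ∀ (k σ ι : Type) [Field k] [Fintype σ] [Fintype ι] (f : ι → MvPolynomial σ k) (p : σ → k) (K : ℕ)
    (h : MvPolynomial σ k), Ann f p K h → ∀ ψ : σ → MvPolynomial σ k, Crd p ψ →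
    ∀ (m : ℕ) (r : ι → MvPolynomial σ k), (∀ j, r j ∈ Mx k σ (K + m)) →
    ∃ (a : ι → MvPolynomial σ k) (b : σ → MvPolynomial σ k), (∀ j, a j ∈ Mx k σ m) ∧
      (∀ l, b l ∈ Mx k σ m) ∧
      ∀ j, r j - (a j * aeval ψ (f j) + ∑ l, b l * aeval ψ (pderiv l (f j))) ∈ Mx k σ (K + m + 1)

/-- **DNW** (medium, uses DMX DTY DST). The Newton step `e → e + 1` for `e = K + m`, `m ≥ K + 1`.
PROOF. `r j = g j - u j * aeval ψ (f j) ∈ Mx (K + m)`. DST: `a`, `b`. Put `ψ' l = ψ l + b l`,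
`u' j = u j + u j * a j`. `b l ∈ Mx m ≤ Mx 2` (`m ≥ K + 1 ≥ 2`), so the terms of degree `0`, `1` of `ψ` do not
change: `Crd p ψ'`; `constantCoeff (a j) = 0`. Let `F = aeval ψ (f j)`, `L = ∑ b_l aeval ψ (∂_l f_j) ∈ Mx m`,
`F' = aeval ψ' (f j)`; `F' - F - L ∈ Mx (2m) ≤ Mx (K+m+1)` (DTY). Modulo `Mx (K+m+1)`:
`u' F' ≡ u (1 + a)(F + L) ≡ u F + u (a F + L)` (`a L ∈ Mx (2m)`), `a F + L ≡ r` (DST), and
`u r ≡ r` because `u - 1 ∈ Mx 1`, `r ∈ Mx (K+m)`. So `u' F' ≡ u F + r = g`. -/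
def DnwStmt : Prop :=
  ∀ (k σ ι : Type) [Field k] [Fintype σ] [Fintype ι] (f g : ι → MvPolynomial σ k) (p : σ → k)
    (K : ℕ) (h : MvPolynomial σ k), Ann f p K h → ∀ (ψ : σ → MvPolynomial σ k)
    (u : ι → MvPolynomial σ k), Crd p ψ → (∀ i, constantCoeff (u i) = 1) → ∀ m : ℕ, K + 1 ≤ m →
    (∀ i, Eqm (K + m) (u i * aeval ψ (f i)) (g i)) →
    ∃ (ψ' : σ → MvPolynomial σ k) (u' : ι → MvPolynomial σ k), Crd p ψ' ∧
      (∀ i, constantCoeff (u' i) = 1) ∧ ∀ i, Eqm (K + m + 1) (u' i * aeval ψ' (f i)) (g i)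

/-- **DET** (easy, uses DNL DNW). `DetStmt`.
PROOF. DNL: `K`, `h`; `D = 2 K + 1`. By induction on `m ≥ K + 1` (DNW, start `u = 1`, `ψ`) there are `ψ'`, `u` with
`Eqm (K + m)`; for given `E` take `m = K + 1 + E` (`Eqm` is antitone in `E`). (The hypothesis `f_i(p) = 0` is not
needed.) -/
def DetRow : Prop := DetStmt

end Pool.Agent.ISO
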