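import Pool.Agent.ISO.Kpt
import Pool.Agent.ISO.Defs
import Pool.Agent.Helper6_Mono.Main

/-!
# Squad ISO, block Z: jets and the zeta function (rows)

MP_b48657_ag, THEOREM U. Writer helper8. Complete proofs in the docstrings. Every row: file
`Pool/Agent/HelperNN_ISO/XXX.lean`, import `Pool.Agent.ISO.StmtsZ`, namespace
`Pool.Agent.ISO.Z.HNN`, theorem `xxx (hypotheses = the statements in uses, in this order) : XxxStmt`.

`lp0 f a c m hm` (Helper32_OMP/Stmts.lean) is the local problem `c ∏ f_i(γ(t))^(a_i) = t^m` modulo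
`t^(m+1)`; `(lp0 ..).K` is the correspondence which adds to a point `b` of the base a series `z(t)`,
`z(0) = 0`, of degree `≤ m`, with the equations for `γ = b + z` (`LP.K`, Helper32_OMP/Base.lean). All
weights: `θ = 0`, `ω = om m = 1/m`, `ϑ = 0`; so `twS ω φ c : S⟦X⟧ → S'⟦X⟧` is the ring homomorphism
which acts on the series.
-/

set_option autoImplicit false

namespace Pool.Agent.ISO.Z

open PowerSeries Finset Pool.Agent.Helper6_Mono Pool.Agent.Helper32_OMP Pool.Agent.ISO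

/-- **ZCG** (easy; uses nothing). Polynomials with terms of degree `> m` only, at series without constant
term.
PROOF. `aeval δ P = ∑_β coeff β P • ∏_l (δ l)^(β l)` (`aeval_def`, `eval₂_eq`); `X ∣ δ l`
(`PowerSeries.X_dvd_iff`), so `X^|β|` divides the product (`Finset.prod_dvd_prod_of_dvd`,
`Finset.prod_pow_eq_pow_sum`), and `|β| ≥ m + 1` if `coeff β P ≠ 0`. So `X^(m+1)` divides `aeval δ P`
(`PowerSeries.X_pow_dvd_iff`). -/
def ZcgStmt : Prop :=
  ∀ (k : Type) [Field k] (σ : Type) (S : Type) [CommRing S] [Algebra k S] (P : MvPolynomial σ k)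
    (m : ℕ), P ∈ Mx k σ (m + 1) → ∀ δ : σ → S⟦X⟧, (∀ l, coeff 0 (δ l) = 0) →
    ∀ j ≤ m, coeff j (MvPolynomial.aeval δ P) = 0

/-- **ZPB** (medium; uses nothing). The substitution `δ ↦ ψ(δ)` is bijective modulo `t^(m+1)`.
PROOF. Hensel's lemma `HensStmt` (landed: `Pool.Agent.Helper32_OMP.H48.hens`, file Helper48_OMP/Hens.lean, import
it) with `ι = σ`, `F i = rename some (ψ i) - C (p i)`, `τ = Function.Embedding.refl σ` (`classical`), `y = 0`, `M = m`,
`v`, `δ = 0`. `at0 (F i) = ψ i - C (p i)`, at `0` it is `0`; the matrix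
`aeval 0 (pderiv i' (at0 (F i)))` is `algebraMap k S` of `coeff (single i' 1) (ψ i)` (the constant coefficient of
`pderiv`: `MvPolynomial.coeff_pderiv`), which is invertible (`Matrix.linearIndependent_rows_iff_isUnit`,
`Matrix.isUnit_iff_isUnit_det`, `RingHom.map_det`). `evt (rename some q) γ = aeval γ q` (`aeval_rename`). The third
condition of Hensel is empty because `range τ` is everything. -/
def ZpbStmt : Prop :=
  ∀ (k : Type) [Field k] (σ : Type) [Fintype σ] (p : σ → k) (ψ : σ → MvPolynomial σ k), Crd p ψ →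
    ∀ (S : Type) [CommRing S] [Algebra k S] (m : ℕ) (v : σ → S⟦X⟧), (∀ l, coeff 0 (v l) = 0) →
    ∃! δ : σ → S⟦X⟧, (∀ l j, m < j → coeff j (δ l) = 0) ∧ (∀ l, coeff 0 (δ l) = 0) ∧
      ∀ l, ∀ j ≤ m, coeff j (MvPolynomial.aeval δ (ψ l) - C (algebraMap k S (p l))) =
        coeff j (v l)

/-- **ZPT** (medium; uses ZCG, ZPB). Jets of `F = c ∏ f_i^(a_i)` at `p` and jets of the model
`F1 = c1 ∏ g_i^(b_i)` at `0`.
PROOF. Take `ψ, u` from `Apx` for `E = m + 1`: `Crd p ψ`, `u(0) = 1`, `u * aeval ψ F - F1 ∈ Mx (m+1)`. Left side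
`X` = `(lp0 f a c m hm).K.app (ptP QZ p)`: points `((), z)`, `z` in `serGF` with indices `1..m`, and
`coeff j (aeval (C p + z) F) = [j = m]` for `j ≤ m` (`LP.fser` for `lp0` is `aeval γ F`: `evt (rename some q) γ =
aeval γ q`, `map_prod`). Right side `Y`: points `((b, δ), ())` with `b = 0` (condition of `Kpt`: the base of the inner
functor is `aeval b (X l) = b l`), `δ` with indices `1..m`, `coeff j (aeval (C b + δ) F1) = [j = m]`. Map `Y → X`:
`δ ↦ z`, `z l = ` the terms `1..m` of `aeval δ (ψ l) - C (p l)` (its term of degree `0` is `0`). The point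
`γ = C p + z` agrees with `aeval δ (ψ ·)` up to `t^(m+1)`, so `aeval γ F` agrees with `aeval δ (aeval ψ F)` mod
`t^(m+1)` (`aeval γ F - aeval γ' F` is in the ideal `(X^(m+1))` if all `γ l - γ' l` are), and by ZCG
`aeval δ u * aeval δ (aeval ψ F) ≡ aeval δ F1`. Since `coeff 0 (aeval δ u) = 1`: for `s, r : S⟦X⟧` with
`coeff 0 r = 1` and `r s ≡ s'` mod `t^(m+1)` one has `s ≡ t^m` iff `s' ≡ t^m` (`r t^m ≡ t^m`, `r` is a unit). So the
equations correspond. Bijective by ZPB (for `v = z`). Equivariance: `twS` is a ring homomorphism and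
`twS (aeval δ q) = aeval (twS ∘ δ) q` (`aeval_tw` or `evt_tw` with `θ = 0`), truncation commutes with it
(`coeff_twS`). Both sides lie over `p`. `OIso.ofBij` and `χ.iso` (`FT` of the application: `Kern.app_FT`). -/
def ZptStmt : Prop :=
  ∀ (k : Type) [Field k] (σ ι ι' : Type) [Fintype σ] [Fintype ι] [Fintype ι'] (R : Type 1)
    [CommRing R] (L : Rˣ) (χ : SInv k (fun _ : σ => (0 : QZ)) L) (f : ι → MvPolynomial σ k)
    (a : ι → ℕ) (c : k) (g : ι' → MvPolynomial σ k) (b : ι' → ℕ) (c1 : k) (p : σ → k),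
    Apx (MvPolynomial.C c * ∏ i, f i ^ a i) p (MvPolynomial.C c1 * ∏ i, g i ^ b i) →
    ∀ (m : ℕ) (hm : m ≠ 0), χ.χ ((lp0 f a c m hm).K.app (ptP QZ p)) =
      χ.χ ((Kpt p).app ((lp0 g b c1 m hm).K.app (affY k σ (0 : QZ))))

/-- **ZLO** (easy; uses ZPT). The same with the jet space of `f1`.
PROOF. ZPT with `ι' = Unit`, `g = f1`, `b = 1`, `c1 = 1` (`C 1 * ∏ i : Unit, f1 ^ 1 = f1` by `simp`). `Jy0Stmt` (landed:
`Pool.Agent.Helper32_OMP.H93.jy0`, file Helper93_OMP/Jy0.lean, import it) for `χ.comp (Kpt p)`, whose value at `X`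
is `χ.χ ((Kpt p).app X)` by definition. -/
def ZloStmt : Prop :=
  ∀ (k : Type) [Field k] (σ ι : Type) [Fintype σ] [Fintype ι] (R : Type 1) [CommRing R] (L : Rˣ)
    (χ : SInv k (fun _ : σ => (0 : QZ)) L) (f : ι → MvPolynomial σ k) (a : ι → ℕ) (c : k)
    (f1 : MvPolynomial σ k) (p : σ → k), Apx (MvPolynomial.C c * ∏ i, f i ^ a i) p f1 →
    ∀ (m : ℕ) (hm : m ≠ 0) (hω : m • om m = 0),
      χ.χ ((lp0 f a c m hm).K.app (ptP QZ p)) =
        χ.χ ((Kpt p).app ((FibK k σ (om m) m hω).app (Jet f1 Set.univ m (om m))))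

/-- **ZAS** (medium; uses nothing). The strata away from the points of `T`.
PROOF. This is the part of `zasm` (Helper32_OMP/Zasm.lean) away from the multiple points, with the landed modules
`H84.away`, `loc0 cellStmt H37.tor`, `H64.pat H48.nul H3.minor`, `H93.jy0`, `H64.genf` (see
Helper32_OMP/Assembly.lean, import it). `F = C c * ∏ f_i^(a_i)`, `R = MM F`, `L = LL F`. For `m ≠ 0`:
`cls (XJet F m hm) = χ.χ ((lp0 f a c m hm).K.app (affY k σ 0))` (JY0) `= ∑_(p ∈ T) χ.χ ((lp0 ..).K.app (ptP QZ p)) +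
∑_V ∑_U ..` (AWAY, `zst_sum`), and the strata with `V` away from `T` contribute `C0 V U * sI L (zset U) a m`
(LOC0 if `GoodP U`, else `0` by PAT and `zst_bad`, since `SncOut f T`). So `Zf F = ∑_(p ∈ T) mk s_p + mk u'`,
`s_p m = Li L^(n m) χ.χ (..)` for `m ≠ 0` and `s_p 0 = 0`, `u' 0 = 0`, `u' m = ∑_V ∑_U C0 V U * sI L (zset U) a m` for
`m ≠ 0`: `RP L (steps {x | ∃ i, x = 1 / a_i}) u'` (GENF, `RP.sum`, `RP.smul`, `RP.shift`, `RP.of_shift` as in `zasm`), so
`mk u' ∈ zetaRing F P` with `-(q.1/q.2) = 1/a_i` for `q ∈ P` (`RP.toRG`, `denoms_inv` as in `zeta_rat`,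
Helper32_OMP/Final.lean). `mk s_p ∈ zetaRing F (S p)` by hypothesis. `zetaRing F S` is monotone in `S`
(`Algebra.adjoin_mono`) and closed under sums. -/
def ZasStmt : Prop :=
  ∀ (k : Type) [Field k] [Algebra k ℂ] (σ ι : Type) [Fintype σ] [Fintype ι]
    (f : ι → MvPolynomial σ k) (a : ι → ℕ), (∀ i, 0 < a i) → ∀ c : k, c ≠ 0 →
    ∀ (T : Finset (σ → k)), SncOut f T →
    ∀ χ : SInv k (fun _ : σ => (0 : QZ)) (LL (MvPolynomial.C c * ∏ i, f i ^ a i)),
    (∀ (m : ℕ) (hm : m ≠ 0) (hω : m • om m = 0),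
      cls (XJet (MvPolynomial.C c * ∏ i, f i ^ a i) m hm) = χ.χ ((FibK k σ (om m) m hω).app
        (Jet (MvPolynomial.C c * ∏ i, f i ^ a i) Set.univ m (om m)))) →
    ∀ S : (σ → k) → Finset (ℤ × ℕ),
    (∀ p ∈ T, ∀ s : ℕ → MM (MvPolynomial.C c * ∏ i, f i ^ a i), s 0 = 0 →
      (∀ (m : ℕ) (hm : m ≠ 0), s m = Li (LL (MvPolynomial.C c * ∏ i, f i ^ a i)) ^
        (m * Fintype.card σ) * χ.χ ((lp0 f a c m hm).K.app (ptP QZ p))) →
      PowerSeries.mk s ∈ zetaRing (MvPolynomial.C c * ∏ i, f i ^ a i) (S p)) →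
    ∃ P : Finset (ℤ × ℕ), (∀ q ∈ P, 0 < q.2 ∧ ∃ i, (q.1 : ℚ) / (q.2 : ℚ) = -(1 / (a i : ℚ))) ∧
      Zf (MvPolynomial.C c * ∏ i, f i ^ a i) ∈
        zetaRing (MvPolynomial.C c * ∏ i, f i ^ a i) (P ∪ T.biUnion S)

end Pool.Agent.ISO.Z
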